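import Mathlib

/-!
A polynomial with more than twice its degree many prime values is irreducible.
-/

set_option autoImplicit false

namespace Pool.Agent.Q91.BX

open Finset Polynomial

lemma card_unit_values (g : ℤ[X]) (hg : ¬ IsUnit g) (S : Finset ℕ)
    (hS : ∀ n ∈ S, (g.eval (n : ℤ)).natAbs = 1) : S.card ≤ 2 * g.natDegree := by
  classical
  rcases Nat.eq_zero_or_pos g.natDegree with h0 | h0
  · rw [h0]
    have hc := eq_C_of_natDegree_eq_zero h0
    suffices S = ∅ by simp [this]
    rw [eq_empty_iff_forall_notMem]
    intro n hn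
    have h1 := hS n hn
    rw [hc, eval_C] at h1
    apply hg
    rw [hc]
    exact (Int.isUnit_iff_natAbs_eq.2 h1).map C
  · have h1 : (g - 1).natDegree = g.natDegree := by
      rw [show (1 : ℤ[X]) = C 1 from C_1.symm]
      exact natDegree_sub_C
    have h2 : (g + 1).natDegree = g.natDegree := by
      rw [show (1 : ℤ[X]) = C 1 from C_1.symm]
      exact natDegree_add_C
    have n1 : g - 1 ≠ 0 := by
      intro h
      rw [h] at h1
      simp at h1
      omega
    have n2 : g + 1 ≠ 0 := by
      intro h
      rw [h] at h2
      simp at h2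
      omega
    have hsub : S.image (fun n : ℕ => (n : ℤ)) ⊆ (g - 1).roots.toFinset ∪ (g + 1).roots.toFinset := by
      intro m hm
      rw [mem_image] at hm
      obtain ⟨n, hn, rfl⟩ := hm
      have h3 := hS n hn
      rw [mem_union, Multiset.mem_toFinset, Multiset.mem_toFinset, mem_roots n1, mem_roots n2]
      unfold IsRoot
      rw [eval_sub, eval_add, eval_one]
      omega
    calc S.card = (S.image (fun n : ℕ => (n : ℤ))).card := by
          rw [card_image_of_injective _ Nat.cast_injective]
      _ ≤ _ := card_le_card hsub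
      _ ≤ (g - 1).roots.toFinset.card + (g + 1).roots.toFinset.card := card_union_le _ _
      _ ≤ Multiset.card (g - 1).roots + Multiset.card (g + 1).roots :=
          add_le_add (Multiset.toFinset_card_le _) (Multiset.toFinset_card_le _)
      _ ≤ (g - 1).natDegree + (g + 1).natDegree := add_le_add (card_roots' _) (card_roots' _)
      _ = 2 * g.natDegree := by rw [h1, h2]; ring

/-- many prime values imply irreducibility -/
lemma irreducible_of_primes (f : ℤ[X]) (hf : 1 ≤ f.natDegree) (S : Finset ℕ)
    (hS : ∀ n ∈ S, (f.eval (n : ℤ)).natAbs.Prime) (hcard : 2 * f.natDegree < S.card) :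
    Irreducible f := by
  classical
  have hf0 : f ≠ 0 := by
    intro h
    rw [h] at hf
    simp at hf
  refine ⟨?_, ?_⟩
  · intro hu
    have := natDegree_eq_zero_of_isUnit hu
    omega
  · intro g h hgh
    by_contra hcon
    rw [not_or] at hcon
    obtain ⟨hg, hh⟩ := hcon
    have hg0 : g ≠ 0 := by
      intro h0
      rw [h0, zero_mul] at hgh
      exact hf0 hgh
    have hh0 : h ≠ 0 := by
      intro h0
      rw [h0, mul_zero] at hgh
      exact hf0 hgh
    have hdeg : f.natDegree = g.natDegree + h.natDegree := by
      rw [hgh, natDegree_mul hg0 hh0]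
    have hsub : S ⊆ S.filter (fun n : ℕ => (g.eval (n : ℤ)).natAbs = 1) ∪
        S.filter (fun n : ℕ => (h.eval (n : ℤ)).natAbs = 1) := by
      intro n hn
      have h1 := hS n hn
      rw [hgh, eval_mul, Int.natAbs_mul, Nat.prime_mul_iff] at h1
      rw [mem_union, mem_filter, mem_filter]
      rcases h1 with h1 | h1
      · right; exact ⟨hn, h1.2⟩
      · left; exact ⟨hn, h1.2⟩
    have h2 := card_unit_values g hg (S.filter (fun n : ℕ => (g.eval (n : ℤ)).natAbs = 1))
      (fun n hn => (mem_filter.1 hn).2)
    have h3 := card_unit_values h hh (S.filter (fun n : ℕ => (h.eval (n : ℤ)).natAbs = 1))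
      (fun n hn => (mem_filter.1 hn).2)
    have h4 := card_le_card hsub
    have h5 := card_union_le (S.filter (fun n : ℕ => (g.eval (n : ℤ)).natAbs = 1))
      (S.filter (fun n : ℕ => (h.eval (n : ℤ)).natAbs = 1))
    omega

end Pool.Agent.Q91.BX
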