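import Mathlib

/-!
Stability of the Euler product for almost all polynomials of height at most `H`: statement.
-/

set_option autoImplicit false

namespace Pool.Agent.Q91.BX.St

open Finset

/-- the number of roots modulo `p` of the polynomial `∑ c_i X ^ i` -/
def rt {j : ℕ} (c : Fin (j + 1) → ℤ) (p : ℕ) : ℕ :=
  ((range p).filter (fun k : ℕ => (p : ℤ) ∣ ∑ i, c i * (k : ℤ) ^ (i : ℕ))).card

/-- the Euler product up to `z` -/
noncomputable def PS {j : ℕ} (z : ℕ) (c : Fin (j + 1) → ℤ) : ℝ :=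
  ∏ p ∈ (Icc 1 z).filter Nat.Prime, (1 - (rt c p : ℝ) / p) / (1 - 1 / (p : ℝ))

/-- `|c i| ≤ H` for all `i` and `c j ≥ 1` -/
noncomputable def box (j H : ℕ) : Finset (Fin (j + 1) → ℤ) :=
  Fintype.piFinset (fun i => if (i : ℕ) = j then Icc 1 (H : ℤ) else Icc (-(H : ℤ)) H)

/-- **the statement**: for all but few members of the box the Euler product changes by a relative
amount of at most `1 / (log H) ^ U` between any two points of `[(log H) ^ E, H ^ (1/3)]` -/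
def S_STAB : Prop := ∀ j : ℕ, 1 ≤ j → ∀ U : ℕ, ∃ E H0 : ℕ, ∀ H : ℕ, H0 ≤ H →
    ∃ Bad ⊆ box j H, ((#Bad : ℕ) : ℝ) ≤ (#(box j H) : ℝ) / Real.log H ^ U ∧
    ∀ c ∈ box j H, c ∉ Bad → ∀ z z' : ℕ, Real.log H ^ E ≤ z → z ≤ z' →
      (z' : ℝ) ≤ (H : ℝ) ^ (1 / 3 : ℝ) →
      |PS z' c - PS z c| ≤ PS z c / Real.log H ^ U

/-- (1) correlations of the root counts of two different primes: only `c 0` varies -/
def S_COR : Prop := ∀ j : ℕ, 1 ≤ j → ∀ H p q : ℕ, p.Prime → q.Prime → p ≠ q → 1 ≤ H →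
    |∑ c ∈ box j H, ((rt c p : ℝ) - 1) * ((rt c q : ℝ) - 1)| ≤
      4 * (p * q : ℕ) * (#(box j H) : ℝ) / (2 * H + 1)

/-- (2) second moment of the root count of one prime: `c 0` and `c 1` vary -/
def S_SQ : Prop := ∀ j : ℕ, 1 ≤ j → ∀ H p : ℕ, p.Prime → p ≤ H →
    ∑ c ∈ box j H, ((rt c p : ℝ) - 1) ^ 2 ≤ 20 * (#(box j H) : ℝ)

/-- (3) few members are divisible by a prime -/
def S_DIV : Prop := ∀ j : ℕ, 1 ≤ j → ∀ H p : ℕ, p.Prime → p ≤ H →
    ((#((box j H).filter (fun c => ∀ i, (p : ℤ) ∣ c i)) : ℕ) : ℝ) ≤ 4 * (#(box j H) : ℝ) / (p : ℝ) ^ 2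

/-- (4) at most `j` roots if `p` does not divide the polynomial -/
def S_LE : Prop := ∀ j : ℕ, ∀ c : Fin (j + 1) → ℤ, ∀ p : ℕ, p.Prime → ¬ (∀ i, (p : ℤ) ∣ c i) → rt c p ≤ j

end Pool.Agent.Q91.BX.St
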