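import Pool.Agent.Q91.BX.BHR

/-!
Bateman-Horn on average over a full box of polynomials, all lengths larger than a power of the
logarithm. Adaptation of Pool/Agent/H300R2/FB/BHG.lean.
-/

set_option autoImplicit false

namespace Pool.Agent.Q91.BX

open Finset Polynomial Filter
open Pool.Agent.H442R2.EHI (norm_add_sq_le evt_log_pow evt_log_ge ff gg ff_fourier ff_sq ff_bound
  ff_zero_of_gt)
open Pool.Agent.H300R2.BH
open Pool.Agent.H300R2.FB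

theorem bhX (j : ℕ) (hj : 1 ≤ j) (ε : ℝ) (hε : 0 < ε) (E0 E6 U : ℕ) :
    ∃ E1 : ℕ, ∀ E : ℕ, E1 ≤ E → ∃ B x0 : ℕ, ∀ x : ℕ, x0 ≤ x → ∀ z : ℕ,
    ⌊Real.log x ^ E1⌋₊ ≤ z → (z : ℝ) ≤ Real.log x ^ E →
    ∀ (K D A A1 a0 : ℕ) (R : ℤ[X]) (m0 : ℤ)
    (H : Fin (j - 1) → ℕ) (σ : ℤ), R.natDegree < j → BoxF j K D A a0 m0 σ x (Real.log x ^ B) →
    (x : ℝ) ≤ D * (K : ℝ) ^ j * Real.log x ^ E0 → Real.log x ^ B ≤ K →
    (K : ℝ) * Real.log x ^ B ≤ A1 → A1 ≤ A → (∀ i, A1 ≤ 2 * H i + 1) →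
    (A1 : ℝ) ≤ D * Real.log x ^ E6 → D ≤ A1 → (x : ℝ) ^ ε ≤ A → A ≤ x →
    (∀ k ∈ Icc 1 K, |((R.eval (k : ℤ) : ℤ) : ℝ)| ≤ (K : ℝ) ^ j / Real.log x ^ B) →
    (∀ i, (H i : ℝ) * Real.log x ^ B ≤ D * (K : ℝ) ^ (j - 1 - (i : ℕ))) →
    ∑ r ∈ bx j H, ∑ a ∈ Ioc a0 (a0 + A), ∑ d ∈ Ioc D (2 * D),
      |pv (FF (C m0 + R + Rr j r) j σ a d) K -
        SS z (FF (C m0 + R + Rr j r) j σ a d) * lF (FF (C m0 + R + Rr j r) j σ a d) K| ≤
      ((bx j H).card : ℝ) * (A * D * K / Real.log x ^ U) := by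
  classical
  set E2 := U + 5 with hE2
  set V := E0 + j * E2 + 1 with hV
  obtain ⟨E1, E3, B1, x1, hE1, hcore⟩ := coreX j hj E0 E2 E6 (2 * U + E0 + 8)
    (8 * j + 2 * (U + 3) + 8)
  refine ⟨E1, fun E hE => ?_⟩
  obtain ⟨B2, x2, hR2⟩ := bhRX j hj ε hε U V E1 E hE1 hE
  obtain ⟨x3, hff⟩ := ff_ok E1 E3
  set B := B1 + B2 + E6 + j * E2 + E2 + 3 with hB
  have hev : ∀ᶠ x : ℕ in atTop, x1 ≤ x ∧ x2 ≤ x ∧ x3 ≤ x ∧ 3 ≤ x ∧
      1000 * (j + 2) ≤ Real.log x := by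
    filter_upwards [eventually_ge_atTop x1, eventually_ge_atTop x2, eventually_ge_atTop x3,
      eventually_ge_atTop 3, evt_log_ge (1000 * (j + 2))]
      with x h1 h2 h3 h4 h5
    exact ⟨h1, h2, h3, h4, h5⟩
  obtain ⟨x0, hx0⟩ := eventually_atTop.mp hev
  refine ⟨B, x0, fun x hx z hzQ hzE K D A A1 a0 R m0 H σ hRj hbox hxDK hxK hKA1 hA1A hA1H hA1D hDA1 hxA hAx
    hR hH => ?_⟩
  obtain ⟨hx1, hx2, hx3, hx3', hL⟩ := hx0 x hx
  set L := Real.log x with hLdef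
  have hj1 : (1:ℝ) ≤ j := by exact_mod_cast hj
  have hL1000 : (1000:ℝ) ≤ L := by nlinarith
  have hL0 : 0 < L := by linarith
  have hL1 : 1 ≤ L := by linarith
  have hLp0 : ∀ n : ℕ, 0 < L ^ n := fun n => by positivity
  have hLp : ∀ n : ℕ, 1 ≤ L ^ n := fun n => one_le_pow₀ hL1
  have hLmono : ∀ m n : ℕ, m ≤ n → L ^ m ≤ L ^ n := fun m n h => pow_le_pow_right₀ hL1 h
  have hxr : (3:ℝ) ≤ x := by exact_mod_cast hx3'
  have hx0' : (0:ℝ) < x := by linarith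
  obtain ⟨hDK, hσ⟩ := boxF_facts (hLp B) hbox
  have hK1r : (1:ℝ) ≤ K := (hLp _).trans hxK
  have hKpos : (0:ℝ) < K := by linarith
  have hK1n : 1 ≤ K := by exact_mod_cast hK1r
  have hKj : (0:ℝ) < (K:ℝ) ^ j := by positivity
  have hA1r : (A1:ℝ) ≤ A := by exact_mod_cast hA1A
  have hKA : (K:ℝ) ≤ A := by
    calc (K:ℝ) ≤ K * L ^ B := le_mul_of_one_le_right hKpos.le (hLp B)
      _ ≤ A1 := hKA1
      _ ≤ A := hA1r
  have hA0 : (0:ℝ) < A := by linarith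
  have hKD : (K:ℝ) ≤ D := by
    have h1 : (K:ℝ) * L ^ B ≤ D * L ^ E6 := hKA1.trans hA1D
    have h2 : (K:ℝ) * L ^ E6 ≤ D * L ^ E6 := by
      refine le_trans ?_ h1
      gcongr
      omega
    exact le_of_mul_le_mul_right h2 (hLp0 _)
  have hLBK : L ^ B ≤ K := hxK
  have hLBD : L ^ B ≤ D := hLBK.trans hKD
  have hD0 : (0:ℝ) < D := by linarith [hLp B]
  -- `K1`
  set K1 := ⌊(K:ℝ) / L ^ (U + 4)⌋₊ with hK1
  have hK1le : (K1:ℝ) ≤ K / L ^ (U + 4) := Nat.floor_le (by positivity)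
  have hK1K : K1 ≤ K := by
    have : (K1:ℝ) ≤ K := hK1le.trans (div_le_self (by positivity) (hLp _))
    exact_mod_cast this
  have hKK1 : (K:ℝ) ≤ K1 * L ^ E2 := by
    have h1 : (K:ℝ) / L ^ (U + 4) < K1 + 1 := Nat.lt_floor_add_one _
    have h2 : L ≤ (K:ℝ) / L ^ (U + 4) := by
      rw [le_div_iff₀ (hLp0 _)]
      calc L * L ^ (U + 4) = L ^ (U + 5) := by ring
        _ ≤ _ := hLmono _ _ (by omega)
        _ ≤ _ := hLBK
    have h3 : (K:ℝ) / L ^ (U + 4) ≤ K1 * L := by nlinarith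
    calc (K:ℝ) = (K / L ^ (U + 4)) * L ^ (U + 4) := by field_simp
      _ ≤ (K1 * L) * L ^ (U + 4) := by gcongr
      _ = K1 * L ^ E2 := by rw [hE2]; ring
  have hDKn : 2 * D * K ^ j ≤ x := by exact_mod_cast hDK
  obtain ⟨hfour, hsq⟩ := hff x hx3
  have hRB : ∀ B0 : ℕ, B0 ≤ B → ∀ k ∈ Icc 1 K, |((R.eval (k : ℤ) : ℤ) : ℝ)| ≤
      (K : ℝ) ^ j / L ^ B0 := by
    intro B0 hB0 k hk
    refine (hR k hk).trans ?_
    apply div_le_div_of_nonneg_left hKj.le (hLp0 _) (hLmono _ _ hB0)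
  have hHB : ∀ B0 : ℕ, B0 ≤ B → ∀ i, (H i : ℝ) * L ^ B0 ≤ D * (K : ℝ) ^ (j - 1 - (i : ℕ)) := by
    intro B0 hB0 i
    refine le_trans ?_ (hH i)
    gcongr
  -- values
  have hvals := fun r hr a d ha hd => fam_vals j hj x (L ^ B) L E0 E2 K K1 D A a0 R m0 σ H
    (by linarith) hLBD (by
      calc 16 * ((j:ℝ) + 2) * L ^ (j * E2) ≤ L * L ^ (j * E2) := by
            gcongr
            linarith
        _ = L ^ (j * E2 + 1) := by ring
        _ ≤ L ^ B := hLmono _ _ (by omega)) hK1K hK1n hKK1 hxDK hbox hR hH r hr a d ha hd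
  have hmain := hcore x hx1 (ff x ⌊L ^ E1⌋₊) (fun n hn => ff_zero_of_gt hn) hfour hsq D K K1 A A1 a0
    R m0 H σ hDKn hxDK ((hLmono _ _ (by omega)).trans hxK) hK1K hKK1
    (le_trans (by gcongr; omega) hKA1) hA1A hA1H hA1D hDA1 hAx
    (fun k hk => hRB B1 (by omega) k (by rw [mem_Ioc] at hk; rw [mem_Icc]; omega))
    (hHB B1 (by omega)) (by
      intro r hr a ha d hd k hk
      obtain ⟨v1, v2, -⟩ := hvals r hr a d ha hd
      have h1 := v1 k (by rw [mem_Ioc] at hk; rw [mem_Icc]; omega)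
      have h2 := v2 k hk
      have h3 : (0:ℝ) ≤ x / L ^ (E0 + j * E2 + 1) := by positivity
      rw [abs_le]
      constructor
      · have : (0:ℝ) ≤ (((FF (C m0 + R + Rr j r) j σ a d).eval (k : ℤ) : ℤ) : ℝ) := h3.trans h2
        have h4 : (0:ℤ) ≤ (FF (C m0 + R + Rr j r) j σ a d).eval (k : ℤ) := by exact_mod_cast this
        omega
      · have h4 : (FF (C m0 + R + Rr j r) j σ a d).eval (k : ℤ) ≤ (x : ℤ) := by exact_mod_cast h1
        omega) hσ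
  have hperR : ∀ r ∈ bx j H, ∑ a ∈ Ioc a0 (a0 + A), ∑ d ∈ Ioc D (2 * D),
      |pv (FF (C m0 + R + Rr j r) j σ a d) K -
        SS z (FF (C m0 + R + Rr j r) j σ a d) * lF (FF (C m0 + R + Rr j r) j σ a d) K| ≤
      A * D * K / L ^ (U + 1) +
      ∑ a ∈ Ioc a0 (a0 + A), ∑ d ∈ Ioc D (2 * D),
        ‖∑ k ∈ Ioc K1 K,
          fz (ff x ⌊L ^ E1⌋₊) ((FF (C m0 + R + Rr j r) j σ a d).eval (k : ℤ))‖ := by
    intro r hr
    refine hR2 x hx2 z hzQ hzE K D A a0 (C m0 + R + Rr j r) σ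
      (3 * j * (D * (K : ℝ) ^ (j - 1)) + 2 * (K : ℝ) ^ j) (natDegree_all j hj R hRj m0 r) hσ
      ((hLmono _ _ (by omega)).trans hxK) hxA hAx ((hLmono _ _ (by omega)).trans hLBD) (by positivity) ?_ ?_ ?_ ?_
    · have hKp : (K:ℝ) * (K:ℝ) ^ (j - 1) = (K:ℝ) ^ j := by
        rw [← pow_succ']; congr 1; omega
      calc (K:ℝ) * (3 * j * (D * (K : ℝ) ^ (j - 1)) + 2 * (K : ℝ) ^ j)
          = 3 * j * (D * (K * (K:ℝ) ^ (j - 1))) + 2 * (K * (K:ℝ) ^ j) := by ring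
        _ ≤ 3 * j * (D * (K:ℝ) ^ j) + 2 * (D * (K:ℝ) ^ j) := by
            rw [hKp]
            gcongr
        _ = (3 * j + 2) * (D * (K:ℝ) ^ j) := by ring
        _ ≤ L * x := by
            apply mul_le_mul _ _ (by positivity) hL0.le
            · linarith
            · linarith
        _ = x * L ^ 1 := by ring
        _ ≤ x * L ^ V := by
            gcongr
            omega
    · intro a ha d hd k hk
      have h1 := (hvals r hr a d ha hd).1 k hk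
      exact_mod_cast h1
    · intro a ha d hd k hk
      exact (hvals r hr a d ha hd).2.1 k hk
    · intro a ha d hd k hk hk1
      exact (hvals r hr a d ha hd).2.2 k hk hk1
  refine (sum_le_sum hperR).trans ?_
  rw [sum_add_distrib, sum_const, nsmul_eq_mul]
  set bc : ℝ := ((bx j H).card : ℝ) with hbc
  have hbc0 : 0 ≤ bc := Nat.cast_nonneg _
  -- Cauchy-Schwarz
  set T := (bx j H) ×ˢ ((Ioc a0 (a0 + A)) ×ˢ (Ioc D (2 * D))) with hT
  set G : (Fin (j - 1) → ℤ) × ℕ × ℕ → ℝ := fun p =>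
    ‖∑ k ∈ Ioc K1 K, fz (ff x ⌊L ^ E1⌋₊) ((FF (C m0 + R + Rr j p.1) j σ p.2.1 p.2.2).eval (k : ℤ))‖
    with hG
  have hTc : (T.card : ℝ) = bc * (A * D) := by
    rw [hT, card_product, card_product, Nat.card_Ioc, Nat.card_Ioc, show a0 + A - a0 = A by omega,
      show 2 * D - D = D by omega]
    push_cast
    ring
  have hS1 : ∑ r ∈ bx j H, ∑ a ∈ Ioc a0 (a0 + A), ∑ d ∈ Ioc D (2 * D),
        ‖∑ k ∈ Ioc K1 K,
          fz (ff x ⌊L ^ E1⌋₊) ((FF (C m0 + R + Rr j r) j σ a d).eval (k : ℤ))‖ =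
      ∑ p ∈ T, G p := by
    rw [hT, sum_product]
    refine sum_congr rfl fun r _ => ?_
    rw [sum_product]
  have hS2 : ∑ r ∈ bx j H, ∑ a ∈ Ioc a0 (a0 + A), ∑ d ∈ Ioc D (2 * D),
        ‖∑ k ∈ Ioc K1 K,
          fz (ff x ⌊L ^ E1⌋₊) ((FF (C m0 + R + Rr j r) j σ a d).eval (k : ℤ))‖ ^ 2 =
      ∑ p ∈ T, G p ^ 2 := by
    rw [hT, sum_product]
    refine sum_congr rfl fun r _ => ?_
    rw [sum_product]
  rw [hS2] at hmain
  rw [hS1]
  have hL1sum : ∑ p ∈ T, G p ≤ bc * (A * D * K) / L ^ (U + 2) := by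
    have h2 := sq_sum_le_card_mul_sum_sq (s := T) (f := G)
    rw [hTc] at h2
    apply le_of_sq_le_sq _ (by positivity)
    refine h2.trans ?_
    calc bc * (A * D) * _ ≤ bc * (A * D) *
          (bc * (A * x * ((K : ℝ) ^ 2 / (K : ℝ) ^ j) / L ^ (2 * U + E0 + 8))) := by
          gcongr
      _ ≤ bc * (A * D) * (bc * (A * (D * (K:ℝ) ^ j * L ^ E0) * ((K : ℝ) ^ 2 / (K : ℝ) ^ j) /
            L ^ (2 * U + E0 + 8))) := by gcongr
      _ = (bc * (A * D * K)) ^ 2 / L ^ (2 * U + 8) := by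
          rw [show 2 * U + E0 + 8 = (2 * U + 8) + E0 by ring, pow_add L _ E0]
          field_simp
      _ ≤ (bc * (A * D * K)) ^ 2 / L ^ (2 * (U + 2)) := by
          gcongr
          · omega
      _ = _ := by rw [div_pow, ← pow_mul, mul_comm 2 (U + 2)]
  calc bc * (A * D * K / L ^ (U + 1)) + ∑ p ∈ T, G p
      ≤ bc * (A * D * K / L ^ (U + 1)) + bc * (A * D * K) / L ^ (U + 2) := by gcongr
    _ = bc * (A * D * K / L ^ U) * (1 / L + 1 / L ^ 2) := by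
        rw [pow_succ, pow_add]
        field_simp
    _ ≤ bc * (A * D * K / L ^ U) * 1 := by
        apply mul_le_mul_of_nonneg_left _ (by positivity)
        have h1 : 1 / L ≤ 1 / 1000 := one_div_le_one_div_of_le (by norm_num) hL1000
        have h2 : 1 / L ^ 2 ≤ 1 / 1000 := by
          apply one_div_le_one_div_of_le (by norm_num)
          nlinarith
        linarith
    _ = _ := mul_one _

end Pool.Agent.Q91.BX
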