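import Pool.Agent.H300R2.FB.MajBox
import Pool.Agent.Q91.BX.OneClass

/-!
Second moment over a box of polynomials: all major arcs, all lengths larger than a power of the
logarithm. Adaptation of Pool/Agent/H300R2/FB/MajBox.lean.
-/

set_option autoImplicit false

namespace Pool.Agent.Q91.BX

open Finset Polynomial Filter
open Pool.Agent.H469R2.NK (e norm_e e_add conj_e e_zero)
open Pool.Agent.H442R2.EHI (sum_e_range e_add_int Maj maj_rep Pairs card_pairs poly twist nint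
  norm_add_sq_le evt_log_pow evt_log_ge)
open Pool.Agent.H300R2.BH
open Pool.Agent.H300R2.FB

lemma major_boxX (j : ℕ) (hj : 1 ≤ j) (E0 E1 E2 E5 U : ℕ) :
    ∃ C0 E3 x0 : ℕ, ∀ x : ℕ, x0 ≤ x → ∀ f : ℕ → ℂ, FourierHyp f x E1 E3 →
    ∑ n ∈ Icc 1 x, ‖f n‖ ^ 2 ≤ x * Real.log x ^ 2 →
    ∀ (Q D K K1 : ℕ) (δ : ℝ), 1 ≤ Q → (Q : ℝ) ≤ Real.log x ^ E1 → 1 ≤ D →
    2 * D * K ^ j ≤ x → (x : ℝ) ≤ D * (K : ℝ) ^ j * Real.log x ^ E0 → Real.log x ^ C0 ≤ K →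
    K1 ≤ K → (K : ℝ) ≤ K1 * Real.log x ^ E2 → 0 ≤ δ → δ * (K : ℝ) ^ j ≤ Real.log x ^ E5 →
    x * δ ≤ (K : ℝ) ^ 2 →
    ∀ (R : ℤ[X]) (m0 : ℤ) (H : Fin (j - 1) → ℕ), (∀ k ∈ Ioc K1 K, |((R.eval (k : ℤ) : ℤ) : ℝ)| ≤
      (K : ℝ) ^ j / Real.log x ^ (2 * E5 + j * E2 + U + 8)) →
    (∀ i, (H i : ℝ) * Real.log x ≤ D * (K1 : ℝ) ^ (j - 1 - (i : ℕ))) →
    ∀ (a : ℕ) (σ : ℤ), σ = 1 ∨ σ = -1 →
    ∑ r' ∈ bx j H, ∑ d ∈ Ioc D (2 * D), ‖∑ k ∈ Ioc K1 K,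
      ∑ p ∈ Pairs Q, ∑ h ∈ (Classical.choose (major_decomp f x Q (16 * x + 1) (by omega) δ)) p,
        chf f x (16 * x + 1) h * e (-((((FF (C m0 + R + Rr j r') j σ a d).eval (k : ℤ) : ℤ) : ℝ) * h /
          ((16 * x + 1 : ℕ) : ℝ)))‖ ^ 2 ≤
      (Q : ℝ) ^ 6 * (((bx j H).card : ℝ) * (x * ((K : ℝ) ^ 2 / (K : ℝ) ^ j) / Real.log x ^ U)) := by
  obtain ⟨C0, E3, x1, hmp⟩ := one_classX j hj E0 E1 E2 E5 U
  refine ⟨C0, E3, max x1 3, fun x hx f hfour hsq Q D K K1 δ hQ hQL hD hDK hxDK hK hK1 hK1L hδ0 hδK hxδ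
    R m0 H hR hH a σ hσ => ?_⟩
  have hx1 : x1 ≤ x := (le_max_left _ _).trans hx
  have hx3 : 3 ≤ x := (le_max_right _ _).trans hx
  set N := 16 * x + 1 with hN
  have hN1 : 1 ≤ N := by omega
  set S := Classical.choose (major_decomp f x Q N (by omega) δ) with hS
  obtain ⟨-, hS2, hS3⟩ := Classical.choose_spec (major_decomp f x Q N (by omega) δ)
  rw [← hS] at hS2 hS3
  have hNr : (0:ℝ) < N := by positivity
  have hpars := ch_parseval f x N (by omega)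
  have hσ2 : (σ : ℝ) * σ = 1 := by
    rcases hσ with h | h <;> rw [h] <;> norm_num
  have hσabs : |(σ : ℝ)| = 1 := by
    rcases hσ with h | h <;> rw [h] <;> norm_num
  -- bound for one pair
  have hpair : ∀ p ∈ Pairs Q, ∃ (θ : ℝ) (S' : Finset ℤ) (c' : ℤ → ℂ),
      (∀ y : ℝ, ∑ h ∈ S p, chf f x N h * e (-((((a : ℝ) + m0) + σ * y) * h / N)) =
        e (-((((a : ℝ) + m0) + σ * y) * ((p.2 : ℝ) / p.1))) * poly N θ S' c' y) ∧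
      ∀ r : ℕ, ∑ r' ∈ bx j H, ∑ d ∈ Ioc D (2 * D),
        ‖∑ k ∈ (Ioc K1 K).filter (fun k => k % p.1 = r),
        poly N θ S' c' ((d : ℝ) * (k : ℝ) ^ j + tR j (fun i => (r' i : ℝ)) k +
          σ * ((R.eval (k : ℤ) : ℤ) : ℝ))‖ ^ 2 ≤
          ((bx j H).card : ℝ) * (x * ((K : ℝ) ^ 2 / (K : ℝ) ^ j) / Real.log x ^ U) := by
    intro p hp
    obtain ⟨θ, S', c', h1, h2, h3, h4⟩ := twist N hN1 (S p) (fun h => chf f x N h) ((a : ℝ) + m0)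
      ((p.2 : ℝ) / p.1) σ hσ
    refine ⟨θ, S', c', h1, fun r => ?_⟩
    have hp' : (1 ≤ p.1 ∧ p.1 ≤ Q) ∧ p.2 < Q := by
      simpa only [Pairs, mem_product, mem_Icc, mem_range] using hp
    apply hmp x hx1 D K K1 p.1 r δ θ S' c' (fun k => σ * ((R.eval (k : ℤ) : ℤ) : ℝ)) H hD hDK hxDK
      hK hK1 hK1L hp'.1.1 ((by exact_mod_cast hp'.1.2 : (p.1 : ℝ) ≤ Q).trans hQL) hδ0 hδK hxδ
      (h3 δ (fun h hh => (hS2 p hp h hh).2))
    · rw [h2]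
      calc (N : ℝ) * ∑ h ∈ S p, ‖chf f x N h‖ ^ 2 ≤ N * ∑ h ∈ range N, ‖chf f x N h‖ ^ 2 := by
            apply mul_le_mul_of_nonneg_left (hS3 p hp) hNr.le
        _ ≤ _ := by rw [hpars]; exact hsq
    · apply h4
      intro h hh hsmall
      have hc : (N : ℝ) * ‖chf f x N h‖ = ‖∑ n ∈ Icc 1 x, f n * e ((n : ℝ) * ((h : ℝ) / N))‖ := by
        unfold chf
        rw [norm_mul, norm_div, norm_one, Complex.norm_natCast, ← mul_assoc,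
          mul_one_div_cancel hNr.ne', one_mul]
      rw [hc]
      have hcop : IsCoprime ((p.2 : ℕ) : ℤ) ((p.1 : ℕ) : ℤ) :=
        Nat.isCoprime_iff_coprime.mpr (hS2 p hp h hh).1
      exact hfour p.1 hp'.1.1 ((by exact_mod_cast hp'.1.2 : (p.1 : ℝ) ≤ Q).trans hQL) p.2 hcop _
        (by simpa using hsmall)
    · intro k hk
      have h5 := hR k hk
      rw [abs_mul, hσabs, one_mul]
      exact h5
    · exact hH
  choose! θ S' c' hp1 hp2 using hpair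
  have hval : ∀ (r' : Fin (j - 1) → ℤ) (d k : ℕ),
      (((FF (C m0 + R + Rr j r') j σ a d).eval (k : ℤ) : ℤ) : ℝ) =
      ((a : ℝ) + m0) + σ * ((d : ℝ) * (k : ℝ) ^ j + tR j (fun i => ((σ * r' i : ℤ) : ℝ)) k +
        σ * ((R.eval (k : ℤ) : ℤ) : ℝ)) := by
    intro r' d k
    have h1 : tR j (fun i => ((σ * r' i : ℤ) : ℝ)) k = σ * tR j (fun i => (r' i : ℝ)) k := by
      rw [← tR_smul]; congr 1; funext i; push_cast; ring
    rw [FF_eval, eval_add, eval_add, eval_C, h1, ← Rr_eval]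
    push_cast
    linear_combination (-((Rr j r').eval (k : ℤ) : ℤ) - (R.eval (k : ℤ) : ℤ) : ℝ) * hσ2
  -- pointwise in d
  have hd : ∀ r' : Fin (j - 1) → ℤ, ∀ d : ℕ, ‖∑ k ∈ Ioc K1 K,
      ∑ p ∈ Pairs Q, ∑ h ∈ S p, chf f x N h *
        e (-((((FF (C m0 + R + Rr j r') j σ a d).eval (k : ℤ) : ℤ) : ℝ) * h / (N : ℝ)))‖ ^ 2 ≤
      (Q : ℝ) ^ 3 * ∑ p ∈ Pairs Q, ∑ r ∈ range Q, ‖∑ k ∈ (Ioc K1 K).filter (fun k => k % p.1 = r),
        poly N (θ p) (S' p) (c' p) ((d : ℝ) * (k : ℝ) ^ j + tR j (fun i => ((σ * r' i : ℤ) : ℝ)) k +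
        σ * ((R.eval (k : ℤ) : ℤ) : ℝ))‖ ^ 2 := by
    intro r' d
    have e1 : ‖∑ k ∈ Ioc K1 K,
        ∑ p ∈ Pairs Q, ∑ h ∈ S p, chf f x N h *
          e (-((((FF (C m0 + R + Rr j r') j σ a d).eval (k : ℤ) : ℤ) : ℝ) * h / (N : ℝ)))‖ ≤
        ∑ p ∈ Pairs Q, ∑ r ∈ range Q, ‖∑ k ∈ (Ioc K1 K).filter (fun k => k % p.1 = r),
          poly N (θ p) (S' p) (c' p) ((d : ℝ) * (k : ℝ) ^ j +
            tR j (fun i => ((σ * r' i : ℤ) : ℝ)) k + σ * ((R.eval (k : ℤ) : ℤ) : ℝ))‖ := by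
      rw [sum_comm]
      refine (norm_sum_le _ _).trans (sum_le_sum fun p hp => ?_)
      have hp' : (1 ≤ p.1 ∧ p.1 ≤ Q) ∧ p.2 < Q := by
        simpa only [Pairs, mem_product, mem_Icc, mem_range] using hp
      have : ∀ k ∈ Ioc K1 K, ∑ h ∈ S p, chf f x N h *
          e (-((((FF (C m0 + R + Rr j r') j σ a d).eval (k : ℤ) : ℤ) : ℝ) * h / (N : ℝ))) =
          e (-((((FF (C m0 + R + Rr j r') j σ a d).eval (k : ℤ) : ℤ) : ℝ) * ((p.2 : ℝ) / p.1))) *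
            poly N (θ p) (S' p) (c' p) ((d : ℝ) * (k : ℝ) ^ j +
              tR j (fun i => ((σ * r' i : ℤ) : ℝ)) k + σ * ((R.eval (k : ℤ) : ℤ) : ℝ)) := by
        intro k _
        rw [hval r' d k]
        exact hp1 p hp _
      rw [sum_congr rfl this]
      refine (split_classes p.1 p.2 hp'.1.1 K1 K
        (fun k => (FF (C m0 + R + Rr j r') j σ a d).eval (k : ℤ))
        (fun k k' h => eval_mod _ _ k k' h) _).trans ?_
      apply sum_le_sum_of_subset_of_nonneg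
      · intro r hr
        rw [mem_range] at hr ⊢
        omega
      · intros; positivity
    calc _ ≤ (∑ p ∈ Pairs Q, ∑ r ∈ range Q, ‖∑ k ∈ (Ioc K1 K).filter (fun k => k % p.1 = r),
          poly N (θ p) (S' p) (c' p) ((d : ℝ) * (k : ℝ) ^ j +
            tR j (fun i => ((σ * r' i : ℤ) : ℝ)) k + σ * ((R.eval (k : ℤ) : ℤ) : ℝ))‖) ^ 2 := by
          apply pow_le_pow_left₀ (norm_nonneg _) e1
      _ = (∑ z ∈ Pairs Q ×ˢ range Q, ‖∑ k ∈ (Ioc K1 K).filter (fun k => k % z.1.1 = z.2),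
          poly N (θ z.1) (S' z.1) (c' z.1) ((d : ℝ) * (k : ℝ) ^ j +
            tR j (fun i => ((σ * r' i : ℤ) : ℝ)) k + σ * ((R.eval (k : ℤ) : ℤ) : ℝ))‖) ^ 2 := by
          rw [sum_product]
      _ ≤ ((Pairs Q ×ˢ range Q).card : ℝ) * ∑ z ∈ Pairs Q ×ˢ range Q,
          ‖∑ k ∈ (Ioc K1 K).filter (fun k => k % z.1.1 = z.2),
          poly N (θ z.1) (S' z.1) (c' z.1) ((d : ℝ) * (k : ℝ) ^ j +
            tR j (fun i => ((σ * r' i : ℤ) : ℝ)) k + σ * ((R.eval (k : ℤ) : ℤ) : ℝ))‖ ^ 2 :=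
          sq_sum_le_card_mul_sum_sq
      _ = _ := by
          rw [sum_product, card_product, card_pairs, card_range]
          push_cast
          ring
  have hneg := sum_bx_neg j H σ hσ (fun r' => ∑ d ∈ Ioc D (2 * D), (Q : ℝ) ^ 3 *
    ∑ p ∈ Pairs Q, ∑ r ∈ range Q, ‖∑ k ∈ (Ioc K1 K).filter (fun k => k % p.1 = r),
        poly N (θ p) (S' p) (c' p) ((d : ℝ) * (k : ℝ) ^ j + tR j (fun i => ((r' i : ℤ) : ℝ)) k +
        σ * ((R.eval (k : ℤ) : ℤ) : ℝ))‖ ^ 2)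
  calc _ ≤ ∑ r' ∈ bx j H, ∑ d ∈ Ioc D (2 * D), (Q : ℝ) ^ 3 * ∑ p ∈ Pairs Q, ∑ r ∈ range Q,
        ‖∑ k ∈ (Ioc K1 K).filter (fun k => k % p.1 = r),
        poly N (θ p) (S' p) (c' p) ((d : ℝ) * (k : ℝ) ^ j +
          tR j (fun i => ((σ * r' i : ℤ) : ℝ)) k + σ * ((R.eval (k : ℤ) : ℤ) : ℝ))‖ ^ 2 :=
        sum_le_sum fun r' _ => sum_le_sum fun d _ => hd r' d
    _ = ∑ r' ∈ bx j H, ∑ d ∈ Ioc D (2 * D), (Q : ℝ) ^ 3 * ∑ p ∈ Pairs Q, ∑ r ∈ range Q,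
        ‖∑ k ∈ (Ioc K1 K).filter (fun k => k % p.1 = r),
        poly N (θ p) (S' p) (c' p) ((d : ℝ) * (k : ℝ) ^ j +
          tR j (fun i => (r' i : ℝ)) k + σ * ((R.eval (k : ℤ) : ℤ) : ℝ))‖ ^ 2 := hneg
    _ = (Q : ℝ) ^ 3 * ∑ p ∈ Pairs Q, ∑ r ∈ range Q, ∑ r' ∈ bx j H, ∑ d ∈ Ioc D (2 * D),
        ‖∑ k ∈ (Ioc K1 K).filter (fun k => k % p.1 = r),
        poly N (θ p) (S' p) (c' p) ((d : ℝ) * (k : ℝ) ^ j +
          tR j (fun i => (r' i : ℝ)) k + σ * ((R.eval (k : ℤ) : ℤ) : ℝ))‖ ^ 2 := by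
        simp only [← mul_sum]
        congr 1
        exact swap4 _ _ _ _ _
    _ ≤ (Q : ℝ) ^ 3 * ∑ p ∈ Pairs Q, ∑ r ∈ range Q,
        (((bx j H).card : ℝ) * (x * ((K : ℝ) ^ 2 / (K : ℝ) ^ j) / Real.log x ^ U)) := by
        gcongr with p hp r hr
        exact hp2 p hp r
    _ = _ := by
        rw [sum_const, sum_const, card_pairs, card_range, nsmul_eq_mul, nsmul_eq_mul]
        push_cast
        ring

end Pool.Agent.Q91.BX
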