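import Pool.Agent.TH892.FullBox4
import Pool.Agent.Q91.BX.Full

/-!
Bateman-Horn for almost all polynomials of height at most `H`: first moments and exceptional sets,
all lengths `K` between a power of `log H` and `H` divided by a power of `log H`.
Adaptation of Pool/Agent/TH892/FullBox4.lean and Pool/Agent/Q251/CF/Box.lean (helper251).
-/

set_option autoImplicit false

namespace Pool.Agent.Q91.BX

open Finset Polynomial Filter Topology
open Pool.Agent.H442R2.EHI (evt_log_pow evt_log_ge)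
open Pool.Agent.H300R2.BH
open Pool.Agent.H300R2.FB
open Pool.Agent.TH892

/-- first moment over all polynomials of height at most `H` -/
theorem mean_boxX (j : ℕ) (hj : 1 ≤ j) (U : ℕ) : ∃ E1 : ℕ, ∀ E : ℕ, E1 ≤ E →
    ∃ B H0 : ℕ, ∀ H : ℕ, H0 ≤ H → ∀ K : ℕ, Real.log H ^ B ≤ K → (K : ℝ) * Real.log H ^ B ≤ H →
    ∑ c ∈ box j H, |pa (pol c) K - SS ⌊Real.log H ^ E⌋₊ (pol c) * la (pol c) K| ≤
      ((box j H).card : ℝ) * K / Real.log H ^ U := by
  classical
  obtain ⟨E1, hE1⟩ := mean_fullX j hj (U + 1)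
  refine ⟨E1 + 1, fun E hE => ?_⟩
  obtain ⟨B, x1, hb⟩ := hE1 E (by omega)
  obtain ⟨x2, hSS⟩ := SS_small (E - 1)
  rw [show E - 1 + 1 = E by omega] at hSS
  have hev : ∀ᶠ H : ℕ in atTop, x1 ≤ H ∧ x2 ≤ H ∧ 8 ≤ Real.log H ∧ 8 * j ≤ Real.log H ∧ 1 ≤ H := by
    filter_upwards [eventually_ge_atTop x1, eventually_ge_atTop x2,
      evt_log_ge 8, evt_log_ge (8 * j), eventually_ge_atTop 1]
      with H h1 h2 h3 h4 h6
    exact ⟨h1, h2, h3, h4, h6⟩
  obtain ⟨H0, hH0⟩ := eventually_atTop.mp hev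
  refine ⟨B + U + 4, H0, fun H hH K hK' hKH' => ?_⟩
  obtain ⟨hx1, hx2, hL8, hLj, hH1⟩ := hH0 H hH
  obtain ⟨-, hSSz⟩ := hSS H hx2
  have hL1' : 1 ≤ Real.log H := by linarith
  have hK : Real.log H ^ B ≤ K := (pow_le_pow_right₀ hL1' (by omega)).trans hK'
  have hLK : Real.log H ^ (U + 4) ≤ K := (pow_le_pow_right₀ hL1' (by omega)).trans hK'
  have hKH : (K : ℝ) * Real.log H ^ B ≤ H :=
    le_trans (mul_le_mul_of_nonneg_left (pow_le_pow_right₀ hL1' (by omega)) (Nat.cast_nonneg _)) hKH'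
  have hmf := hb H hx1 K hK hKH
  set L := Real.log H with hLdef
  set z := ⌊L ^ E⌋₊ with hz
  have hL0 : 0 < L := by linarith
  have hL1 : 1 ≤ L := by linarith
  have hLp0 : ∀ n : ℕ, 0 < L ^ n := fun n => by positivity
  have hHr : (1:ℝ) ≤ H := by exact_mod_cast hH1
  -- pointwise comparison
  have hpt : ∀ c ∈ box j H, |pa (pol c) K - SS z (pol c) * la (pol c) K| ≤
      |pv (pol c) K - SS z (pol c) * lF (pol c) K| +
        3 * L * ((j * H : ℕ) / ((c (Fin.last j)).toNat : ℝ)) := by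
    intro c hc
    obtain ⟨c1, c2, c3⟩ := abs_conv (pol c) K (j * H / (c (Fin.last j)).toNat)
      (fun k hk _ => eval_nonneg hj hc hk)
    obtain ⟨s1, s2⟩ := hSSz (pol c)
    have hK1 : ((j * H / (c (Fin.last j)).toNat : ℕ) : ℝ) ≤
        (j * H : ℕ) / ((c (Fin.last j)).toNat : ℝ) := Nat.cast_div_le
    set K1 : ℝ := ((j * H / (c (Fin.last j)).toNat : ℕ) : ℝ) with hK1d
    have e1 : pa (pol c) K - SS z (pol c) * la (pol c) K =
        (pa (pol c) K - pv (pol c) K) +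
        (pv (pol c) K - SS z (pol c) * lF (pol c) K) +
        (-(SS z (pol c) * (la (pol c) K - lF (pol c) K))) := by ring
    rw [e1]
    refine (abs_add_le _ _).trans ?_
    have h1 := abs_add_le (pa (pol c) K - pv (pol c) K)
      (pv (pol c) K - SS z (pol c) * lF (pol c) K)
    have h2 : |-(SS z (pol c) * (la (pol c) K - lF (pol c) K))| ≤ L * (2 * K1) := by
      rw [abs_neg, abs_of_nonneg (mul_nonneg s1 c2)]
      exact mul_le_mul s2 c3 c2 hL0.le
    have h3 : K1 + L * (2 * K1) ≤ 3 * L * ((j * H : ℕ) / ((c (Fin.last j)).toNat : ℝ)) := by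
      have hK1n : (0:ℝ) ≤ K1 := Nat.cast_nonneg _
      calc K1 + L * (2 * K1) ≤ 3 * L * K1 := by nlinarith
        _ ≤ _ := by gcongr
    linarith
  have hharm : ∑ d ∈ Ioc 0 H, ((j * H : ℕ) / (d : ℝ)) ≤ j * H * (2 * L) := by
    have h1 : ∑ d ∈ Ioc 0 H, ((d : ℝ))⁻¹ ≤ 1 + L := by
      have h2 := harmonic_le_one_add_log H
      rw [harmonic_eq_sum_Icc] at h2
      push_cast at h2
      have h3 : Ioc 0 H = Icc 1 H := by ext; simp [Nat.succ_le_iff]
      rw [h3]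
      exact h2
    calc ∑ d ∈ Ioc 0 H, ((j * H : ℕ) / (d : ℝ)) = (j * H) * ∑ d ∈ Ioc 0 H, ((d : ℝ))⁻¹ := by
          rw [mul_sum]
          refine sum_congr rfl fun d _ => ?_
          push_cast
          rw [div_eq_mul_inv]
      _ ≤ (j * H) * (2 * L) := by
          gcongr
          linarith
  have hfirst : ∑ c ∈ box j H, |pv (pol c) K - SS z (pol c) * lF (pol c) K| ≤
      ((box j H).card : ℝ) * K / L ^ (U + 1) := by
    rw [sum_box hj H (fun f _ => |pv f K - SS z f * lF f K|), card_box hj H]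
    exact hmf
  have hsecond : ∑ c ∈ box j H, (3 * L * ((j * H : ℕ) / ((c (Fin.last j)).toNat : ℝ))) ≤
      ((box j H).card : ℝ) * K / L ^ (U + 1) := by
    rw [sum_box hj H (fun _ d => 3 * L * ((j * H : ℕ) / (d : ℝ))), card_box hj H]
    calc _ ≤ ∑ _r ∈ bx j (fun _ => H), ∑ _a ∈ Ioc 0 (0 + (2 * H + 1)), (3 * L * (j * H * (2 * L))) := by
          refine sum_le_sum fun r _ => sum_le_sum fun a _ => ?_
          rw [← mul_sum]
          gcongr
      _ = ((bx j (fun _ => H)).card : ℝ) * ((2 * H + 1 : ℕ) : ℝ) * H * (6 * j * L ^ 2) := by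
          simp only [sum_const, Nat.card_Ioc, nsmul_eq_mul]
          rw [show 0 + (2 * H + 1) - 0 = 2 * H + 1 by omega]
          ring
      _ ≤ ((bx j (fun _ => H)).card : ℝ) * ((2 * H + 1 : ℕ) : ℝ) * H * (K / L ^ (U + 1)) := by
          apply mul_le_mul_of_nonneg_left _ (by positivity)
          rw [le_div_iff₀ (hLp0 _)]
          calc 6 * (j:ℝ) * L ^ 2 * L ^ (U + 1) ≤ L * L ^ 2 * L ^ (U + 1) := by
                gcongr
                have : (0:ℝ) ≤ j := Nat.cast_nonneg _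
                linarith
            _ = L ^ (U + 4) := by ring
            _ ≤ _ := hLK
      _ = _ := by ring
  calc _ ≤ ∑ c ∈ box j H, (|pv (pol c) K - SS z (pol c) * lF (pol c) K| +
        3 * L * ((j * H : ℕ) / ((c (Fin.last j)).toNat : ℝ))) := sum_le_sum hpt
    _ ≤ ((box j H).card : ℝ) * K / L ^ (U + 1) + ((box j H).card : ℝ) * K / L ^ (U + 1) := by
        rw [sum_add_distrib]
        exact add_le_add hfirst hsecond
    _ = ((box j H).card : ℝ) * K / L ^ U * (2 / L) := by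
        rw [pow_succ]
        field_simp
        ring
    _ ≤ ((box j H).card : ℝ) * K / L ^ U * 1 := by
        apply mul_le_mul_of_nonneg_left _ (by positivity)
        rw [div_le_one hL0]
        linarith
    _ = _ := mul_one _

/-- **the exceptional set**, all lengths `K` simultaneously -/
theorem exc_boxX (j : ℕ) (hj : 1 ≤ j) (U : ℕ) : ∃ E1 : ℕ, ∀ E : ℕ, E1 ≤ E →
    ∃ B H0 : ℕ, ∀ H : ℕ, H0 ≤ H → ∀ (P : (Fin (j + 1) → ℤ) → Prop) [DecidablePred P],
    (∀ c ∈ box j H, P c → (∀ p : ℕ, p.Prime → p ≤ ⌊Real.log H ^ E⌋₊ → rho (pol c) p ≠ p) ∧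
      ∃ K : ℕ, Real.log H ^ B ≤ K ∧ (K : ℝ) * Real.log H ^ B ≤ H ∧
        SS ⌊Real.log H ^ E⌋₊ (pol c) * la (pol c) K / Real.log H ^ U <
        |pa (pol c) K - SS ⌊Real.log H ^ E⌋₊ (pol c) * la (pol c) K|) →
    (((box j H).filter P).card : ℝ) ≤ ((box j H).card : ℝ) / Real.log H ^ U := by
  classical
  obtain ⟨E1, hE1⟩ := mean_boxX j hj (3 * (U + 3) + 7)
  refine ⟨E1 + 1, fun E hE => ?_⟩
  obtain ⟨B, x1, hb⟩ := hE1 E (by omega)
  obtain ⟨x2, hSS⟩ := SS_small (E - 1)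
  rw [show E - 1 + 1 = E by omega] at hSS
  obtain ⟨c, hc, hSSl⟩ := SS_lower j hj
  have hlogs : ∀ᶠ x : ℕ in atTop, (E * Real.log (Real.log x)) ^ (2 * j) * (4 * (j + 2)) ≤
      c * Real.log x := by
    have h1 : (fun t : ℝ => Real.log t ^ (2 * j)) =o[atTop] fun t : ℝ => t :=
      Real.isLittleO_pow_log_id_atTop
    have h2 := h1.bound (show (0:ℝ) < c / ((4 * (j + 2)) * (1 + E) ^ (2 * j)) by positivity)
    have h3 := (Real.tendsto_log_atTop.comp (tendsto_natCast_atTop_atTop (R := ℝ))).eventually h2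
    filter_upwards [h3, evt_log_ge (Real.exp 1)] with x hx hx2
    simp only [Function.comp] at hx
    have ht0 : 0 < Real.log x := lt_of_lt_of_le (Real.exp_pos 1) hx2
    have hl : 1 ≤ Real.log (Real.log x) := by
      rw [Real.le_log_iff_exp_le ht0]; exact hx2
    rw [Real.norm_of_nonneg (by positivity), Real.norm_of_nonneg ht0.le] at hx
    calc (E * Real.log (Real.log x)) ^ (2 * j) * (4 * (j + 2))
        ≤ ((1 + E) * Real.log (Real.log x)) ^ (2 * j) * (4 * (j + 2)) := by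
          gcongr
          linarith
      _ = ((4 * (j + 2)) * (1 + E) ^ (2 * j)) * Real.log (Real.log x) ^ (2 * j) := by
          rw [mul_pow]; ring
      _ ≤ ((4 * (j + 2)) * (1 + E) ^ (2 * j)) * (c / ((4 * (j + 2)) * (1 + E) ^ (2 * j)) *
          Real.log x) := by gcongr
      _ = c * Real.log x := by field_simp
  have hev : ∀ᶠ H : ℕ in atTop, x1 ≤ H ∧ x2 ≤ H ∧ 8 ≤ Real.log H ∧
      (j + 1) ≤ H ∧ 6 * (j:ℝ) ≤ Real.log H ∧
      (E * Real.log (Real.log H)) ^ (2 * j) * (4 * (j + 2)) ≤ c * Real.log H := by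
    filter_upwards [eventually_ge_atTop x1, eventually_ge_atTop x2,
      evt_log_ge 8, evt_log_ge (6 * j), eventually_ge_atTop (j + 1), hlogs]
      with H h1 h2 h3 h4 h8 h9
    exact ⟨h1, h2, h3, h8, h4, h9⟩
  obtain ⟨H0, hH0⟩ := eventually_atTop.mp hev
  refine ⟨B + U + 7, H0, fun H hH P _ hP => ?_⟩
  obtain ⟨hx1, hx2, hL8, hjH, hjK, hll⟩ := hH0 H hH
  obtain ⟨hz3, hSSz⟩ := hSS H hx2
  have hmb := hb H hx1
  set L := Real.log H with hLdef
  set z := ⌊L ^ E⌋₊ with hz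
  have hL0 : 0 < L := by linarith
  have hL1 : 1 ≤ L := by linarith
  have hLp0 : ∀ n : ℕ, 0 < L ^ n := fun n => by positivity
  have hLp : ∀ n : ℕ, 1 ≤ L ^ n := fun n => one_le_pow₀ hL1
  have hHr : (1:ℝ) ≤ H := by
    have : (1:ℝ) ≤ ((j + 1 : ℕ) : ℝ) := by push_cast; linarith [(Nat.cast_nonneg j : (0:ℝ) ≤ j)]
    exact this.trans (by exact_mod_cast hjH)
  have hLmono : ∀ m n : ℕ, m ≤ n → L ^ m ≤ L ^ n := fun m n h => pow_le_pow_right₀ hL1 h
  have h4a : 4 * L ^ (B + U + 6) ≤ L ^ (B + U + 7) := by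
    calc 4 * L ^ (B + U + 6) ≤ L * L ^ (B + U + 6) := by gcongr; linarith
      _ = L ^ (B + U + 7) := by ring
  have key := all_K (box j H) (fun c K => pa (pol c) K) (fun c K => la (pol c) K)
    (fun c => SS z (pol c)) (U + 3) H (L ^ (B + U + 6)) B hL8
    (fun c _ K K' h => pa_mono _ h) (fun c _ K K' h => la_diff _ h)
    (fun c _ => hSSz (pol c)) (fun K hK hKH => hmb K ((hLmono _ _ (by omega)).trans hK) hKH)
    (hLmono _ _ (by omega)) P (by
      intro c0 hc0 hPc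
      obtain ⟨hnf, K, hK1, hK2, hK3⟩ := hP c0 hc0 hPc
      have hK2' : (K:ℝ) * L ^ (B + 1) ≤ H :=
        le_trans (mul_le_mul_of_nonneg_left (hLmono _ _ (by omega)) (Nat.cast_nonneg _)) hK2
      refine ⟨K, h4a.trans hK1, hK2', lt_of_le_of_lt ?_ hK3⟩
      have hKH : K ≤ H := by
        have : (K:ℝ) ≤ H := by
          calc (K:ℝ) ≤ K * L ^ (B + 1) := le_mul_of_one_le_right (Nat.cast_nonneg _) (hLp _)
            _ ≤ H := hK2'
        exact_mod_cast this
      have h6j : 6 * j ≤ K := by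
        have h0 : L ≤ L ^ (B + U + 7) := le_self_pow₀ hL1 (by omega)
        have : 6 * (j:ℝ) ≤ K := hjK.trans (h0.trans hK1)
        exact_mod_cast this
      have hla := la_lower j hj hjH hKH h6j hc0
      rw [← hLdef] at hla
      have hs1 := hSSl z hz3 (pol c0) (pol_natDegree_le c0) hnf
      have hzle : (z:ℝ) ≤ L ^ E := Nat.floor_le (by positivity)
      have hzr : (3:ℝ) ≤ z := by exact_mod_cast hz3
      have hlogz : Real.log z ≤ E * Real.log L := by
        rw [← Real.log_pow]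
        exact Real.log_le_log (by linarith) hzle
      have hlogz0 : 0 < Real.log z := Real.log_pos (by linarith)
      have h3 : 4 * (j + 2) / L ≤ SS z (pol c0) := by
        refine le_trans ?_ hs1
        rw [div_le_div_iff₀ hL0 (by positivity)]
        calc 4 * ((j:ℝ) + 2) * Real.log z ^ (2 * j) ≤ 4 * (j + 2) * (E * Real.log L) ^ (2 * j) := by
              gcongr
          _ = (E * Real.log L) ^ (2 * j) * (4 * (j + 2)) := by ring
          _ ≤ c * L := hll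
      have hSS0 : 0 ≤ SS z (pol c0) := le_trans (by positivity) h3
      calc K / L ^ (U + 3) ≤ (4 * (j + 2) / L) * (K / (2 * (j + 2) * L)) / L ^ U := by
            have : (4 * (j + 2) / L) * (K / (2 * (j + 2) * L)) / L ^ U =
                2 * K / (L ^ U * L ^ 2) := by
              field_simp
              ring
            rw [this, show U + 3 = U + 2 + 1 by ring, pow_succ, pow_add]
            rw [div_le_div_iff₀ (by positivity) (by positivity)]
            have hK0 : (0:ℝ) ≤ K := Nat.cast_nonneg _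
            have h5 : (K:ℝ) * (L ^ U * L ^ 2) ≤ 2 * K * (L ^ U * L ^ 2) * L := by
              have : 0 ≤ (K:ℝ) * (L ^ U * L ^ 2) := by positivity
              nlinarith
            calc (K:ℝ) * (L ^ U * L ^ 2) ≤ 2 * K * (L ^ U * L ^ 2) * L := h5
              _ = 2 * ↑K * (L ^ U * L ^ 2 * L) := by ring
        _ ≤ SS z (pol c0) * la (pol c0) K / L ^ U := by gcongr)
  refine key.trans ?_
  apply div_le_div_of_nonneg_left (Nat.cast_nonneg _) (hLp0 _)
  exact pow_le_pow_right₀ hL1 (by omega)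



lemma pv_mono (F : ℤ[X]) {K K' : ℕ} (h : K ≤ K') : pv F K ≤ pv F K' := by
  unfold pv
  have : ((Icc 1 K).filter (fun k : ℕ => (F.eval (k : ℤ)).toNat.Prime)).card ≤
      ((Icc 1 K').filter (fun k : ℕ => (F.eval (k : ℤ)).toNat.Prime)).card :=
    card_le_card (filter_subset_filter _ (Icc_subset_Icc_right h))
  exact_mod_cast this

lemma lF_diff (F : ℤ[X]) {K K' : ℕ} (h : K ≤ K') :
    0 ≤ lF F K' - lF F K ∧ lF F K' - lF F K ≤ 2 * ((K' : ℝ) - K) := by
  classical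
  have hsub : (Icc 1 K).filter (fun k : ℕ => 2 ≤ F.eval (k : ℤ)) ⊆
      (Icc 1 K').filter (fun k : ℕ => 2 ≤ F.eval (k : ℤ)) :=
    filter_subset_filter _ (Icc_subset_Icc_right h)
  have he : lF F K' - lF F K = ∑ k ∈ ((Icc 1 K').filter (fun k : ℕ => 2 ≤ F.eval (k : ℤ))) \
      ((Icc 1 K).filter (fun k : ℕ => 2 ≤ F.eval (k : ℤ))),
      1 / Real.log ((F.eval (k : ℤ) : ℤ) : ℝ) := by
    unfold lF
    rw [← sum_sdiff hsub]
    ring
  have hmem : ∀ k ∈ ((Icc 1 K').filter (fun k : ℕ => 2 ≤ F.eval (k : ℤ))) \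
      ((Icc 1 K).filter (fun k : ℕ => 2 ≤ F.eval (k : ℤ))), 2 ≤ F.eval (k : ℤ) ∧ k ∈ Ioc K K' := by
    intro k hk
    rw [Finset.mem_sdiff, mem_filter, mem_filter, mem_Icc, mem_Icc, not_and] at hk
    obtain ⟨⟨⟨h1, h2⟩, h3⟩, h4⟩ := hk
    refine ⟨h3, ?_⟩
    rw [mem_Ioc]
    refine ⟨?_, h2⟩
    by_contra hcon
    exact h4 ⟨h1, by omega⟩ h3
  have hterm : ∀ k : ℕ, 2 ≤ F.eval (k : ℤ) → 0 ≤ 1 / Real.log ((F.eval (k : ℤ) : ℤ) : ℝ) ∧
      1 / Real.log ((F.eval (k : ℤ) : ℤ) : ℝ) ≤ 2 := by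
    intro k hk
    have h1 : (2:ℝ) ≤ ((F.eval (k : ℤ) : ℤ) : ℝ) := by exact_mod_cast hk
    have h2 : Real.log 2 ≤ Real.log ((F.eval (k : ℤ) : ℤ) : ℝ) := Real.log_le_log (by norm_num) h1
    have h3 : (0.5 : ℝ) < Real.log 2 := by have := Real.log_two_gt_d9; linarith
    constructor
    · apply div_nonneg zero_le_one
      linarith
    · rw [div_le_iff₀ (by linarith)]
      linarith
  rw [he]
  constructor
  · exact sum_nonneg fun k hk => (hterm k (hmem k hk).1).1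
  · calc _ ≤ ∑ _k ∈ ((Icc 1 K').filter (fun k : ℕ => 2 ≤ F.eval (k : ℤ))) \
      ((Icc 1 K).filter (fun k : ℕ => 2 ≤ F.eval (k : ℤ))), (2 : ℝ) :=
          sum_le_sum fun k hk => (hterm k (hmem k hk).1).2
      _ = (#(((Icc 1 K').filter (fun k : ℕ => 2 ≤ F.eval (k : ℤ))) \
      ((Icc 1 K).filter (fun k : ℕ => 2 ≤ F.eval (k : ℤ)))) : ℝ) * 2 := by
          rw [sum_const, nsmul_eq_mul]
      _ ≤ ((K' : ℝ) - K) * 2 := by
          apply mul_le_mul_of_nonneg_right _ (by norm_num)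
          have h1 := card_le_card (fun k hk => (hmem k hk).2)
          rw [Nat.card_Ioc] at h1
          have h2 : ((K' - K : ℕ) : ℝ) = (K' : ℝ) - K := by
            rw [Nat.cast_sub h]
          rw [← h2]
          exact_mod_cast h1
      _ = _ := by ring

lemma lF_le (F : ℤ[X]) (K : ℕ) : 0 ≤ lF F K ∧ lF F K ≤ 2 * K := by
  have h := lF_diff F (Nat.zero_le K)
  have h0 : lF F 0 = 0 := by
    unfold lF
    simp
  rw [h0] at h
  simpa using h

lemma la_le (F : ℤ[X]) (K : ℕ) : 0 ≤ la F K ∧ la F K ≤ 2 * K := by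
  have h := la_diff F (Nat.zero_le K)
  have h0 : la F 0 = 0 := by
    unfold la
    simp
  rw [h0] at h
  simpa using h

/-- first moment, positive primes -/
theorem mean_posX (j : ℕ) (hj : 1 ≤ j) (U : ℕ) : ∃ E1 : ℕ, ∀ E : ℕ, E1 ≤ E →
    ∃ B H0 : ℕ, ∀ H : ℕ, H0 ≤ H → ∀ K : ℕ, Real.log H ^ B ≤ K → (K : ℝ) * Real.log H ^ B ≤ H →
    ∑ c ∈ box j H, |pv (pol c) K - SS ⌊Real.log H ^ E⌋₊ (pol c) * lF (pol c) K| ≤
      ((box j H).card : ℝ) * K / Real.log H ^ U := by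
  obtain ⟨E1, hE1⟩ := mean_fullX j hj U
  refine ⟨E1, fun E hE => ?_⟩
  obtain ⟨B, H0, h⟩ := hE1 E hE
  refine ⟨B, H0, fun H hH K hK hKH => ?_⟩
  have hmf := h H hH K hK hKH
  rw [sum_box hj H (fun f _ => |pv f K - SS ⌊Real.log H ^ E⌋₊ f * lF f K|), card_box hj H]
  exact hmf

/-- **the exceptional set**, positive primes, all lengths `K` simultaneously -/
theorem exc_posX (j : ℕ) (hj : 1 ≤ j) (U : ℕ) : ∃ E1 : ℕ, ∀ E : ℕ, E1 ≤ E →
    ∃ B H0 : ℕ, ∀ H : ℕ, H0 ≤ H → ∀ (P : (Fin (j + 1) → ℤ) → Prop) [DecidablePred P],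
    (∀ c ∈ box j H, P c → ∃ K : ℕ, Real.log H ^ B ≤ K ∧ (K : ℝ) * Real.log H ^ B ≤ H ∧
        K / Real.log H ^ U < |pv (pol c) K - SS ⌊Real.log H ^ E⌋₊ (pol c) * lF (pol c) K|) →
    (((box j H).filter P).card : ℝ) ≤ ((box j H).card : ℝ) / Real.log H ^ U := by
  classical
  obtain ⟨E1, hE1⟩ := mean_posX j hj (3 * U + 7)
  refine ⟨E1 + 1, fun E hE => ?_⟩
  obtain ⟨B, x1, hb⟩ := hE1 E (by omega)
  obtain ⟨x2, hSS⟩ := SS_small (E - 1)
  rw [show E - 1 + 1 = E by omega] at hSS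
  have hev : ∀ᶠ H : ℕ in atTop, x1 ≤ H ∧ x2 ≤ H ∧ 8 ≤ Real.log H ∧ 1 ≤ H := by
    filter_upwards [eventually_ge_atTop x1, eventually_ge_atTop x2,
      evt_log_ge 8, eventually_ge_atTop 1]
      with H h1 h2 h3 h8
    exact ⟨h1, h2, h3, h8⟩
  obtain ⟨H0, hH0⟩ := eventually_atTop.mp hev
  refine ⟨B + U + 4, H0, fun H hH P _ hP => ?_⟩
  obtain ⟨hx1, hx2, hL8, hH1⟩ := hH0 H hH
  obtain ⟨hz3, hSSz⟩ := hSS H hx2
  have hHr : (1 : ℝ) ≤ H := by exact_mod_cast hH1
  set L := Real.log H with hLdef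
  have hL0 : 0 < L := by linarith
  have hL1 : 1 ≤ L := by linarith
  have hLmono : ∀ m n : ℕ, m ≤ n → L ^ m ≤ L ^ n := fun m n h => pow_le_pow_right₀ hL1 h
  have h4a : 4 * L ^ (B + U + 3) ≤ L ^ (B + U + 4) := by
    calc 4 * L ^ (B + U + 3) ≤ L * L ^ (B + U + 3) := by gcongr; linarith
      _ = L ^ (B + U + 4) := by ring
  exact all_K (box j H) (fun c K => pv (pol c) K) (fun c K => lF (pol c) K)
    (fun c => SS ⌊L ^ E⌋₊ (pol c)) U H (L ^ (B + U + 3)) B hL8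
    (fun c _ K K' h => pv_mono _ h) (fun c _ K K' h => lF_diff _ h)
    (fun c _ => hSSz (pol c))
    (fun K hK hKH => hb H hx1 K ((hLmono _ _ (by omega)).trans hK) hKH)
    (hLmono _ _ (by omega)) P (by
      intro c0 hc0 hPc
      obtain ⟨K, hK1, hK2, hK3⟩ := hP c0 hc0 hPc
      exact ⟨K, h4a.trans hK1, le_trans (mul_le_mul_of_nonneg_left (hLmono _ _ (by omega))
        (Nat.cast_nonneg _)) hK2, hK3⟩)

end Pool.Agent.Q91.BX
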