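import Pool.Agent.Q91.BX.Box
import Pool.Agent.Q91.BX.StmSt
import Pool.Agent.Q91.BX.Irr

/-!
Bateman-Horn for almost all polynomials: final form (one exceptional set for all lengths `K` and all
cuts `z` of the Euler product, irreducibility, lower bound).
-/

set_option autoImplicit false

namespace Pool.Agent.Q91.BX

open Finset Polynomial Filter Topology
open Pool.Agent.H442R2.EHI (evt_log_pow evt_log_ge)
open Pool.Agent.H300R2.BH
open Pool.Agent.H300R2.FB
open Pool.Agent.TH892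

lemma PS_eq {j : ℕ} (z : ℕ) (c : Fin (j + 1) → ℤ) : St.PS z c = SS z (pol c) := by
  unfold St.PS SS
  refine prod_congr rfl fun p _ => ?_
  have : St.rt c p = rho (pol c) p := by
    unfold St.rt rho
    congr 1
    refine filter_congr fun k _ => ?_
    rw [pol_eval]
  rw [this]

/-- elementary conditions for large `H` -/
lemma evt_fin (j B E : ℕ) (c0 : ℝ) (hc0 : 0 < c0) : ∃ H1 : ℕ, ∀ H : ℕ, H1 ≤ H →
    8 ≤ Real.log H ∧ 1 ≤ Real.log (Real.log H) ∧ j + 1 ≤ H ∧ 6 * (j : ℝ) + 1 ≤ Real.log H ∧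
    4 * ((j : ℝ) + 2) * (E : ℝ) ^ (2 * j) ≤ c0 * Real.log (Real.log H) ∧
    Real.log (Real.log H) ^ (2 * j + 1) ≤ Real.log H ∧ Real.log H ^ (2 * B + 1) ≤ H := by
  have hlt : Tendsto (fun n : ℕ => Real.log (n : ℝ)) atTop atTop :=
    Real.tendsto_log_atTop.comp (tendsto_natCast_atTop_atTop (R := ℝ))
  have hllt : Tendsto (fun n : ℕ => Real.log (Real.log (n : ℝ))) atTop atTop :=
    Real.tendsto_log_atTop.comp hlt
  have h1 : (fun t : ℝ => Real.log t ^ (2 * j + 1)) =o[atTop] fun t : ℝ => t :=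
    Real.isLittleO_pow_log_id_atTop
  have h2 := h1.bound (show (0:ℝ) < 1 by norm_num)
  have h3 := hlt.eventually h2
  have hev : ∀ᶠ H : ℕ in atTop, 8 ≤ Real.log H ∧ 1 ≤ Real.log (Real.log H) ∧ j + 1 ≤ H ∧
      6 * (j : ℝ) + 1 ≤ Real.log H ∧
      4 * ((j : ℝ) + 2) * (E : ℝ) ^ (2 * j) ≤ c0 * Real.log (Real.log H) ∧
      Real.log (Real.log H) ^ (2 * j + 1) ≤ Real.log H ∧ Real.log H ^ (2 * B + 1) ≤ H := by
    filter_upwards [h3, evt_log_ge 8, evt_log_ge (6 * j + 1), eventually_ge_atTop (j + 1),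
      hllt.eventually_ge_atTop 1, hllt.eventually_ge_atTop (4 * ((j : ℝ) + 2) * (E : ℝ) ^ (2 * j) / c0),
      evt_log_pow (2 * B + 1) 1 (by norm_num)] with H a1 a2 a3 a4 a5 a6 a7
    refine ⟨a2, a5, a4, a3, ?_, ?_, ?_⟩
    · rw [div_le_iff₀ hc0] at a6
      linarith
    · rw [Real.norm_of_nonneg (pow_nonneg (by linarith) _), Real.norm_of_nonneg (by linarith),
        one_mul] at a1
      exact a1
    · rwa [Real.rpow_one] at a7
  exact eventually_atTop.mp hev

theorem final (hst : St.S_STAB) (j : ℕ) (hj : 1 ≤ j) (U : ℕ) : ∃ E B H0 : ℕ, ∀ H : ℕ, H0 ≤ H →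
    ∃ Bad ⊆ box j H, ((Bad.card : ℕ) : ℝ) ≤ ((box j H).card : ℝ) / Real.log H ^ U ∧
    ∀ c ∈ box j H, c ∉ Bad → (∀ p : ℕ, p.Prime → rho (pol c) p < p) →
      Irreducible (pol c) ∧
      ∀ K : ℕ, Real.log H ^ B ≤ K → (K : ℝ) * Real.log H ^ B ≤ H →
        (K : ℝ) / (Real.log H * Real.log (Real.log H) ^ (2 * j + 1)) ≤ pa (pol c) K ∧
        ∀ z : ℕ, Real.log H ^ E ≤ z → (z : ℝ) ≤ (H : ℝ) ^ (1 / 3 : ℝ) →
          |pa (pol c) K - SS z (pol c) * la (pol c) K| ≤
            SS z (pol c) * la (pol c) K / Real.log H ^ U := by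
  classical
  obtain ⟨E1, hE1⟩ := exc_boxX j hj (U + 2)
  obtain ⟨E2, H2, hE2⟩ := hst j hj (U + 2)
  set E := E1 + E2 + 1 with hEdef
  obtain ⟨B0, H1, hexc⟩ := hE1 E (by omega)
  obtain ⟨c0, hc0, hSSl⟩ := SS_lower j hj
  obtain ⟨x2, hSS⟩ := SS_small (E - 1)
  rw [show E - 1 + 1 = E by omega] at hSS
  obtain ⟨H3, hH3⟩ := evt_fin j (B0 + 3) E c0 hc0
  obtain ⟨H4, hH4⟩ := eventually_atTop.mp (evt_log_pow E (1 / 3) (by norm_num))
  refine ⟨E, B0 + 3, H1 + H2 + x2 + H3 + H4, fun H hH => ?_⟩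
  obtain ⟨hL8, hLL1, hjH, hjL, hcL, hLLp, hLB⟩ := hH3 H (by omega)
  obtain ⟨hz3, hSSz⟩ := hSS H (by omega)
  have hEH := hH4 H (by omega)
  obtain ⟨Bad2, hBad2s, hBad2c, hBad2⟩ := hE2 H (by omega)
  have hexcH := hexc H (by omega)
  set L := Real.log H with hLdef
  set z0 := ⌊L ^ E⌋₊ with hz0
  have hL0 : 0 < L := by linarith
  have hL1 : 1 ≤ L := by linarith
  have hLp0 : ∀ n : ℕ, 0 < L ^ n := fun n => by positivity
  have hLp : ∀ n : ℕ, 1 ≤ L ^ n := fun n => one_le_pow₀ hL1
  have hz0L : (z0 : ℝ) ≤ L ^ E := Nat.floor_le (hLp0 _).le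
  have hz0E2 : L ^ E2 ≤ z0 := by
    have h1 : L ^ E < z0 + 1 := Nat.lt_floor_add_one _
    have h2 : L * L ^ E2 ≤ L ^ E := by
      rw [← pow_succ']
      exact pow_le_pow_right₀ hL1 (by omega)
    have h3 := hLp E2
    nlinarith
  -- the exceptional set
  set P : (Fin (j + 1) → ℤ) → Prop := fun c => (∀ p : ℕ, p.Prime → p ≤ z0 → rho (pol c) p ≠ p) ∧
      ∃ K : ℕ, L ^ B0 ≤ K ∧ (K : ℝ) * L ^ B0 ≤ H ∧
        SS z0 (pol c) * la (pol c) K / L ^ (U + 2) < |pa (pol c) K - SS z0 (pol c) * la (pol c) K|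
    with hP
  have hPc := hexcH P (fun c _ h => h)
  refine ⟨(box j H).filter P ∪ Bad2, union_subset (filter_subset _ _) ?_, ?_, ?_⟩
  · exact hBad2s
  · have h1 : ((((box j H).filter P ∪ Bad2).card : ℕ) : ℝ) ≤
        (((box j H).filter P).card : ℝ) + (Bad2.card : ℝ) := by
      exact_mod_cast card_union_le _ _
    have h2 : ((Bad2.card : ℕ) : ℝ) ≤ ((box j H).card : ℝ) / L ^ (U + 2) := hBad2c
    have h3 : ((box j H).card : ℝ) / L ^ (U + 2) + ((box j H).card : ℝ) / L ^ (U + 2) ≤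
        ((box j H).card : ℝ) / L ^ U := by
      rw [← add_div, div_le_div_iff₀ (hLp0 _) (hLp0 _)]
      have h4 : (0:ℝ) ≤ ((box j H).card : ℝ) := Nat.cast_nonneg _
      calc (((box j H).card : ℝ) + ((box j H).card : ℝ)) * L ^ U =
            ((box j H).card : ℝ) * (2 * L ^ U) := by ring
        _ ≤ ((box j H).card : ℝ) * (L ^ 2 * L ^ U) := by
            gcongr
            nlinarith
        _ = _ := by rw [pow_add]; ring
    linarith
  · intro c hc hcBad hfix
    rw [mem_union, not_or, mem_filter, not_and] at hcBad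
    obtain ⟨hcP, hc2⟩ := hcBad
    have hcP' := hcP hc
    have hmain : ∀ K : ℕ, L ^ B0 ≤ K → (K : ℝ) * L ^ B0 ≤ H →
        |pa (pol c) K - SS z0 (pol c) * la (pol c) K| ≤
          SS z0 (pol c) * la (pol c) K / L ^ (U + 2) := by
      intro K h1 h2
      by_contra hcon
      push Not at hcon
      exact hcP' ⟨fun p hp _ => (hfix p hp).ne, K, h1, h2, hcon⟩
    have hSS0 : 0 ≤ SS z0 (pol c) := (hSSz (pol c)).1
    have hz0r : (3:ℝ) ≤ z0 := by exact_mod_cast hz3
    have hlogz : Real.log z0 ≤ E * Real.log L := by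
      rw [← Real.log_pow]
      exact Real.log_le_log (by linarith) hz0L
    have hlogz0 : 0 < Real.log z0 := Real.log_pos (by linarith)
    have hsl := hSSl z0 hz3 (pol c) (pol_natDegree_le c) (fun p hp _ => (hfix p hp).ne)
    -- lower bound
    have hLL0 : 0 < Real.log L := by linarith
    have hlow : ∀ K : ℕ, L ^ (B0 + 3) ≤ K → (K : ℝ) * L ^ (B0 + 3) ≤ H →
        (K : ℝ) / (L * Real.log L ^ (2 * j + 1)) ≤ pa (pol c) K := by
      intro K h1 h2
      have hB0K : L ^ B0 ≤ K := (pow_le_pow_right₀ hL1 (by omega)).trans h1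
      have hKB0 : (K : ℝ) * L ^ B0 ≤ H :=
        le_trans (mul_le_mul_of_nonneg_left (pow_le_pow_right₀ hL1 (by omega))
          (Nat.cast_nonneg _)) h2
      have hm := hmain K hB0K hKB0
      have hKH : K ≤ H := by
        have : (K:ℝ) ≤ H := by
          calc (K:ℝ) ≤ K * L ^ B0 := le_mul_of_one_le_right (Nat.cast_nonneg _) (hLp _)
            _ ≤ H := hKB0
        exact_mod_cast this
      have h6j : 6 * j ≤ K := by
        have h0 : L ≤ L ^ (B0 + 3) := le_self_pow₀ hL1 (by omega)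
        have : 6 * (j:ℝ) ≤ K := by linarith
        exact_mod_cast this
      have hla := la_lower j hj hjH hKH h6j hc
      rw [← hLdef] at hla
      have hK0 : (0:ℝ) ≤ K := Nat.cast_nonneg _
      have hj2 : (0:ℝ) < (j:ℝ) + 2 := by positivity
      have hla0 : 0 ≤ la (pol c) K := le_trans (by positivity) hla
      have hhalf : SS z0 (pol c) * la (pol c) K / L ^ (U + 2) ≤ SS z0 (pol c) * la (pol c) K / 2 := by
        apply div_le_div_of_nonneg_left (mul_nonneg hSS0 hla0) (by norm_num)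
        calc (2:ℝ) ≤ L := by linarith
          _ ≤ L ^ (U + 2) := le_self_pow₀ hL1 (by omega)
      have h5 : SS z0 (pol c) * la (pol c) K / 2 ≤ pa (pol c) K := by
        have := (abs_le.1 (hm.trans hhalf)).1
        linarith
      refine le_trans ?_ h5
      have hS1 : c0 / (E * Real.log L) ^ (2 * j) ≤ SS z0 (pol c) := by
        refine le_trans ?_ hsl
        apply div_le_div_of_nonneg_left hc0.le (by positivity)
        gcongr
      have hS2 : c0 / (E * Real.log L) ^ (2 * j) * ((K : ℝ) / (2 * (j + 2) * L)) ≤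
          SS z0 (pol c) * la (pol c) K := by
        apply mul_le_mul hS1 hla (by positivity) hSS0
      refine le_trans ?_ (div_le_div_of_nonneg_right hS2 (by norm_num : (0:ℝ) ≤ 2))
      have hE0 : (0:ℝ) < E := by
        have : 0 < E := by omega
        exact_mod_cast this
      have e1 : c0 / (E * Real.log L) ^ (2 * j) * ((K : ℝ) / (2 * (j + 2) * L)) / 2 =
          (K : ℝ) / (L * Real.log L ^ (2 * j + 1)) *
            (c0 * Real.log L / (4 * (j + 2) * (E : ℝ) ^ (2 * j))) := by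
        rw [mul_pow]
        field_simp
        ring
      rw [e1]
      apply le_mul_of_one_le_right (by positivity)
      rw [one_le_div (by positivity)]
      exact hcL
    refine ⟨?_, ?_⟩
    · -- irreducibility
      set K1 := ⌈L ^ (B0 + 3)⌉₊ with hK1
      have hK1a : L ^ (B0 + 3) ≤ K1 := Nat.le_ceil _
      have hK1b : (K1 : ℝ) < L ^ (B0 + 3) + 1 := Nat.ceil_lt_add_one (hLp0 _).le
      have hK1c : (K1 : ℝ) * L ^ (B0 + 3) ≤ H := by
        have h1 : (K1 : ℝ) ≤ L * L ^ (B0 + 3) := by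
          have := hLp (B0 + 3)
          nlinarith
        calc (K1 : ℝ) * L ^ (B0 + 3) ≤ (L * L ^ (B0 + 3)) * L ^ (B0 + 3) := by gcongr
          _ = L ^ (2 * (B0 + 3) + 1) := by ring
          _ ≤ H := hLB
      have h2 := hlow K1 hK1a hK1c
      have h3 : L ≤ pa (pol c) K1 := by
        refine le_trans ?_ h2
        rw [le_div_iff₀ (by positivity)]
        calc L * (L * Real.log L ^ (2 * j + 1)) ≤ L * (L * L) := by gcongr
          _ = L ^ 3 := by ring
          _ ≤ L ^ (B0 + 3) := pow_le_pow_right₀ hL1 (by omega)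
          _ ≤ K1 := hK1a
      apply irreducible_of_primes (pol c) (by rw [pol_natDegree hc]; exact hj)
        ((Icc 1 K1).filter (fun k : ℕ => ((pol c).eval (k : ℤ)).natAbs.Prime))
        (fun n hn => (mem_filter.1 hn).2)
      rw [pol_natDegree hc]
      have h4 : (2 * (j:ℝ)) < pa (pol c) K1 := by
        have : (0:ℝ) ≤ j := Nat.cast_nonneg _
        linarith
      unfold pa at h4
      exact_mod_cast h4
    · intro K h1 h2
      refine ⟨hlow K h1 h2, fun z hz1 hz2 => ?_⟩
      have hB0K : L ^ B0 ≤ K := (pow_le_pow_right₀ hL1 (by omega)).trans h1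
      have hKB0 : (K : ℝ) * L ^ B0 ≤ H :=
        le_trans (mul_le_mul_of_nonneg_left (pow_le_pow_right₀ hL1 (by omega))
          (Nat.cast_nonneg _)) h2
      have hm := hmain K hB0K hKB0
      have hz0z : z0 ≤ z := by
        have : (z0 : ℝ) ≤ z := hz0L.trans hz1
        exact_mod_cast this
      have hst1 := hBad2 c hc hc2 z0 z hz0E2 hz0z hz2
      rw [PS_eq, PS_eq] at hst1
      have hla0 := (la_le (pol c) K).1
      set S0 := SS z0 (pol c) with hS0
      set S1 := SS z (pol c) with hS1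
      set l := la (pol c) K with hl
      have hU2 : 2 ≤ L ^ (U + 2) := by
        calc (2:ℝ) ≤ L := by linarith
          _ ≤ L ^ (U + 2) := le_self_pow₀ hL1 (by omega)
      have h3 : S0 / L ^ (U + 2) ≤ S0 / 2 := by
        apply div_le_div_of_nonneg_left hSS0 (by norm_num) hU2
      have h4 : S0 ≤ 2 * S1 := by
        have := (abs_le.1 (hst1.trans h3)).1
        linarith
      have hS1n : 0 ≤ S1 := by linarith
      have e1 : pa (pol c) K - S1 * l = (pa (pol c) K - S0 * l) + -((S1 - S0) * l) := by ring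
      rw [e1]
      calc |(pa (pol c) K - S0 * l) + -((S1 - S0) * l)| ≤
            |pa (pol c) K - S0 * l| + |-((S1 - S0) * l)| := abs_add_le _ _
        _ ≤ S0 * l / L ^ (U + 2) + S0 / L ^ (U + 2) * l := by
            rw [abs_neg, abs_mul, abs_of_nonneg hla0]
            gcongr
        _ = 2 * (S0 * l) / L ^ (U + 2) := by ring
        _ ≤ 2 * (2 * S1 * l) / L ^ (U + 2) := by gcongr
        _ = S1 * l / L ^ U * (4 / L ^ 2) := by
            rw [pow_add]
            field_simp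
            ring
        _ ≤ S1 * l / L ^ U * 1 := by
            apply mul_le_mul_of_nonneg_left _ (by positivity)
            rw [div_le_one (by positivity)]
            nlinarith
        _ = _ := mul_one _

end Pool.Agent.Q91.BX
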